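import Pool.Agent.Lib.helper22.MatOr

set_option autoImplicit false

namespace Pool.Agent.H.MP_b4c394_co

open Set Pool.Agent.Lib.helper22.MatOr

lemma mk (L : Finset (Finset (Fin 8)))
    (h1 : ∀ X ∈ L, ∀ e ∈ X, ∀ f ∉ X, insert f (X.erase e) ∉ L) (h2 : ∀ X ∈ L, X.card = 4)
    (h0 : {0, 1, 2, 3} ∉ L) :
    ∃ M : Matroid (Fin 8), M.E = univ ∧
      ∀ I : Finset (Fin 8), M.Indep I ↔ I.card ≤ 4 ∧ I ∉ L := by
  obtain ⟨M, hE, hB⟩ := sp 4 {X : Set (Fin 8) | ∃ T ∈ L, X = ↑T} (by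
    rintro _ ⟨T, hT, rfl⟩ e he f hf ⟨S, hS, h⟩
    refine h1 T hT e he f hf ?_
    have : insert f (T.erase e) = S := by
      rw [← Finset.coe_inj, ← h]; simp
    rwa [this]) ⟨({0, 1, 2, 3} : Finset (Fin 8)), by rw [ncard_coe_finset]; rfl, by
    rintro ⟨S, hS, h⟩
    exact h0 (Finset.coe_inj.1 h ▸ hS)⟩
  have hB' : ∀ B : Finset (Fin 8), M.IsBase B ↔ B.card = 4 ∧ B ∉ L := by
    intro B
    rw [hB, ncard_coe_finset]
    simp
  refine ⟨M, hE, fun I => ⟨fun h => ?_, fun h => ?_⟩⟩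
  · obtain ⟨B, hb, hI⟩ := h.exists_isBase_superset
    lift B to Finset (Fin 8) using toFinite _
    rw [hB'] at hb
    have hI' : I ⊆ B := Finset.coe_subset.1 hI
    refine ⟨hb.1 ▸ Finset.card_le_card hI', fun h3 => hb.2 ?_⟩
    rwa [← Finset.eq_of_subset_of_card_le hI' (by rw [hb.1, h2 I h3])]
  · obtain ⟨J, hIJ, -, hJ⟩ := Finset.exists_subsuperset_card_eq (Finset.subset_univ I) h.1
      (by simp)
    by_cases h3 : J ∈ L
    · obtain ⟨e, he, heI⟩ := Finset.exists_of_ssubset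
        (Finset.ssubset_iff_subset_ne.2 ⟨hIJ, fun h4 => h.2 (h4 ▸ h3)⟩)
      obtain ⟨f, -, hf⟩ := Finset.exists_mem_notMem_of_card_lt_card (s := J) (t := Finset.univ)
        (by simp [hJ])
      refine ((hB' _).2 ⟨?_, h1 J h3 e he f hf⟩).indep.subset ?_
      · rw [Finset.card_insert_of_notMem (fun h5 => hf (Finset.mem_of_mem_erase h5)),
          Finset.card_erase_of_mem he, hJ]
      · intro x hx
        exact Finset.mem_coe.2 (Finset.mem_insert_of_mem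
          (Finset.mem_erase.2 ⟨fun h5 => heI (h5 ▸ hx), hIJ hx⟩))
    · exact ((hB' J).2 ⟨hJ, h3⟩).indep.subset (Finset.coe_subset.2 hIJ)

def LM : Finset (Finset (Fin 8)) :=
  {{0, 1, 2, 4}, {1, 2, 3, 5}, {0, 3, 4, 6}, {2, 4, 5, 6}, {0, 3, 5, 7}, {1, 4, 5, 7}, {0, 1, 6, 7}, {2, 3, 6, 7}}

def LN : Finset (Finset (Fin 8)) :=
  {{0, 2, 3, 5}, {1, 2, 4, 5}, {0, 1, 3, 6}, {3, 4, 5, 6}, {0, 1, 4, 7}, {2, 3, 4, 7}, {1, 2, 6, 7}, {0, 5, 6, 7}}

def pd : Fin 8 → Fin 8 → Fin 8 :=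
  ![![0, 1, 4, 5, 7, 2, 3, 6],
    ![0, 1, 4, 5, 2, 7, 3, 6],
    ![0, 3, 2, 7, 4, 5, 1, 6],
    ![0, 7, 4, 3, 1, 2, 5, 6],
    ![1, 2, 5, 0, 4, 3, 7, 6],
    ![1, 0, 3, 2, 6, 5, 7, 4],
    ![0, 2, 3, 7, 5, 4, 6, 1],
    ![0, 2, 5, 1, 3, 4, 6, 7]]

def pc : Fin 8 → Fin 8 → Fin 8 :=
  ![![0, 1, 4, 5, 7, 2, 6, 3],
    ![0, 1, 4, 5, 7, 2, 3, 6],
    ![0, 3, 2, 7, 5, 4, 1, 6],
    ![0, 7, 4, 3, 1, 2, 6, 5],
    ![1, 5, 2, 0, 4, 3, 7, 6],
    ![1, 3, 0, 2, 6, 5, 7, 4],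
    ![1, 2, 5, 0, 3, 4, 6, 7],
    ![1, 0, 3, 2, 5, 6, 4, 7]]

lemma sM : ∀ X ∈ LM, ∀ e ∈ X, ∀ f ∉ X, insert f (X.erase e) ∉ LM := by decide +kernel
lemma sN : ∀ X ∈ LN, ∀ e ∈ X, ∀ f ∉ X, insert f (X.erase e) ∉ LN := by decide +kernel
lemma cM : ∀ X ∈ LM, X.card = 4 := by decide +kernel
lemma cN : ∀ X ∈ LN, X.card = 4 := by decide +kernel

lemma bd : ∀ e, Function.Injective (pd e) ∧ pd e e = e := by decide +kernel
lemma bc : ∀ e, Function.Injective (pc e) ∧ pc e e = e := by decide +kernel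

lemma hd : ∀ e, ∀ I : Finset (Fin 8), e ∉ I → (I ∈ LM ↔ I.image (pd e) ∈ LN) := by
  decide +kernel

lemma hc : ∀ e, ∀ I : Finset (Fin 8), e ∈ I → (I ∈ LM ↔ I.image (pc e) ∈ LN) := by
  decide +kernel

lemma one : ∀ e : Fin 8, {e} ∉ LM ∧ {e} ∉ LN := by decide +kernel

set_option synthInstance.maxSize 4000 in
lemma non : ∀ a0 a1 a2 a4 : Fin 8, {a0, a1, a2, a4} ∈ LN → ∀ a3 a5, {a1, a2, a3, a5} ∈ LN →
    ∀ a6, {a0, a3, a4, a6} ∈ LN → {a2, a4, a5, a6} ∈ LN → ∀ a7, {a0, a3, a5, a7} ∈ LN →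
    {a1, a4, a5, a7} ∈ LN → {a0, a1, a6, a7} ∈ LN → {a2, a3, a6, a7} ∉ LN := by
  decide +kernel

lemma bij {p : Fin 8 → Fin 8} {e : Fin 8} (h : Function.Injective p ∧ p e = e) :
    BijOn p (univ \ {e}) (univ \ {e}) := by
  refine ⟨fun x hx => ⟨trivial, fun h1 => hx.2 (h.1 (h1.trans h.2.symm))⟩, h.1.injOn,
    fun y hy => ?_⟩
  obtain ⟨x, rfl⟩ := Finite.injective_iff_surjective.1 h.1 y
  exact ⟨x, ⟨trivial, fun h1 => hy.2 (by rw [h1]; exact h.2)⟩, rfl⟩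

theorem main : ¬ ∀ (α : Type) (M N : Matroid α), M.Finite → N.E = M.E → 2 ≤ M.E.ncard →
      (∀ e ∈ M.E,
        (∃ f : α → α, Set.BijOn f (M.delete {e}).E (N.delete {e}).E ∧
          ∀ I ⊆ (M.delete {e}).E, ((M.delete {e}).Indep I ↔ (N.delete {e}).Indep (f '' I))) ∧
        (∃ f : α → α, Set.BijOn f (M.contract {e}).E (N.contract {e}).E ∧
          ∀ I ⊆ (M.contract {e}).E, ((M.contract {e}).Indep I ↔ (N.contract {e}).Indep (f '' I)))) →
      ∃ f : α → α, Set.BijOn f M.E N.E ∧ ∀ I ⊆ M.E, (M.Indep I ↔ N.Indep (f '' I)) := by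
  intro h
  obtain ⟨M, hM, iM⟩ := mk LM sM cM (by decide +kernel)
  obtain ⟨N, hN, iN⟩ := mk LN sN cN (by decide +kernel)
  obtain ⟨f, -, hf⟩ := h (Fin 8) M N ⟨toFinite _⟩ (hN.trans hM.symm) (by simp [hM]) (fun e _ => by
    constructor
    · refine ⟨pd e, by simpa only [Matroid.delete_ground, hM, hN] using bij (bd e), fun I hI => ?_⟩
      lift I to Finset (Fin 8) using toFinite _
      have he : e ∉ I := fun h1 => (hI h1).2 rfl
      have he' : e ∉ I.image (pd e) := fun h1 => by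
        obtain ⟨x, hx, h2⟩ := Finset.mem_image.1 h1
        exact he ((bd e).1 (h2.trans (bd e).2.symm) ▸ hx)
      rw [Matroid.delete_indep_iff, Matroid.delete_indep_iff, ← Finset.coe_image, iM, iN,
        Finset.card_image_of_injective _ (bd e).1, hd e I he]
      simp only [disjoint_singleton_right, Finset.mem_coe, he, he']
    · refine ⟨pc e, by simpa only [Matroid.contract_ground, hM, hN] using bij (bc e),
        fun I hI => ?_⟩
      lift I to Finset (Fin 8) using toFinite _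
      have he : e ∉ I := fun h1 => (hI h1).2 rfl
      have he' : e ∉ I.image (pc e) := fun h1 => by
        obtain ⟨x, hx, h2⟩ := Finset.mem_image.1 h1
        exact he ((bc e).1 (h2.trans (bc e).2.symm) ▸ hx)
      have n1 : M.IsNonloop e := by
        rw [← Matroid.indep_singleton, ← Finset.coe_singleton, iM]
        exact ⟨by simp, (one e).1⟩
      have n2 : N.IsNonloop e := by
        rw [← Matroid.indep_singleton, ← Finset.coe_singleton, iN]
        exact ⟨by simp, (one e).2⟩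
      have h3 : insert e (I.image (pc e)) = (insert e I).image (pc e) := by
        rw [Finset.image_insert, (bc e).2]
      rw [n1.contractElem_indep_iff, n2.contractElem_indep_iff, ← Finset.coe_image,
        ← Finset.coe_insert, ← Finset.coe_insert, iM, iN, h3,
        Finset.card_image_of_injective _ (bc e).1, hc e _ (Finset.mem_insert_self _ _)]
      simp only [Finset.mem_coe, he, he'])
  have key : ∀ a b c d : Fin 8, {a, b, c, d} ∈ LM → {f a, f b, f c, f d} ∈ LN := by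
    intro a b c d h1
    have h2 := hf (({a, b, c, d} : Finset (Fin 8)) : Set (Fin 8)) (hM ▸ subset_univ _)
    rw [← Finset.coe_image, iM, iN] at h2
    by_contra h3
    refine (h2.2 ⟨Finset.card_image_le.trans (cM _ h1).le, ?_⟩).2 h1
    simpa only [Finset.image_insert, Finset.image_singleton] using h3
  exact non (f 0) (f 1) (f 2) (f 4) (key _ _ _ _ (by decide +kernel)) (f 3) (f 5)
    (key _ _ _ _ (by decide +kernel)) (f 6) (key _ _ _ _ (by decide +kernel))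
    (key _ _ _ _ (by decide +kernel)) (f 7) (key _ _ _ _ (by decide +kernel))
    (key _ _ _ _ (by decide +kernel)) (key _ _ _ _ (by decide +kernel))
    (key _ _ _ _ (by decide +kernel))

end Pool.Agent.H.MP_b4c394_co
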